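import Mathlib

namespace Pool.Agent.H.MP_73128c_co.Four

open SimpleGraph

def adjB (a b : Fin 9) : Bool :=
  (a.val, b.val) ∈ [(0,3),(0,7),(0,8),(1,2),(1,6),(1,8),(2,3),(2,5),(3,4),(4,5),(4,6),(4,7),
    (5,6),(5,7),(6,8),(7,8),(3,0),(7,0),(8,0),(2,1),(6,1),(8,1),(3,2),(5,2),(4,3),(5,4),(6,4),
    (7,4),(6,5),(7,5),(8,6),(8,7)]

def G : SimpleGraph (Fin 9) where
  Adj a b := adjB a b = true
  symm := ⟨by intro a b; revert a b; decide⟩
  loopless := ⟨by decide⟩

instance : DecidableRel G.Adj := fun a b => inferInstanceAs (Decidable (adjB a b = true))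

def ty : Fin 9 → Fin 4 := ![0,0,1,1,2,2,2,2,3]
def ob : Fin 9 → Fin 5 := ![0,0,1,1,2,2,3,3,4]

/-- a permutation that carries the card at `u` to the card at `v` -/
theorem mk_iso (u v : Fin 9) (s t : Fin 9 → Fin 9) (h1 : ∀ a, t (s a) = a) (h2 : ∀ a, s (t a) = a)
    (huv : s u = v) (h : ∀ a b, a ≠ u → b ≠ u → (G.Adj (s a) (s b) ↔ G.Adj a b)) :
    Nonempty (G.induce {w | w ≠ u} ≃g G.induce {w | w ≠ v}) := by
  refine ⟨⟨⟨fun a => ⟨s a.1, ?_⟩, fun a => ⟨t a.1, ?_⟩, ?_, ?_⟩, ?_⟩⟩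
  · intro hc
    apply a.2
    rw [← huv] at hc
    have := congrArg t hc
    rwa [h1, h1] at this
  · intro hc
    apply a.2
    exact (h2 a.1).symm.trans ((congrArg s hc).trans huv)
  · intro a; ext; simp [h1]
  · intro a; ext; simp [h2]
  · intro a b
    exact h a.1 b.1 a.2 b.2

/-- number of vertices of degree `d` in the card at `u` -/
def cnt (u : Fin 9) (d : ℕ) : ℕ :=
  (Finset.univ.filter fun a : Fin 9 => a ≠ u ∧
    (Finset.univ.filter fun b : Fin 9 => b ≠ u ∧ G.Adj a b).card = d).card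

theorem cnt_eq (u v : Fin 9) (h : Nonempty (G.induce {w | w ≠ u} ≃g G.induce {w | w ≠ v}))
    (d : ℕ) : cnt u d = cnt v d := by
  obtain ⟨e⟩ := h
  have key : ∀ a : {w : Fin 9 | w ≠ u},
      (Finset.univ.filter fun b : Fin 9 => b ≠ u ∧ G.Adj a.1 b).card =
      (Finset.univ.filter fun b : Fin 9 => b ≠ v ∧ G.Adj (e a).1 b).card := by
    intro a
    refine Finset.card_bij (fun b hb => (e ⟨b, (Finset.mem_filter.1 hb).2.1⟩).1) ?_ ?_ ?_
    · intro b hb
      have hb' := (Finset.mem_filter.1 hb).2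
      refine Finset.mem_filter.2 ⟨Finset.mem_univ _, (e ⟨b, hb'.1⟩).2, ?_⟩
      exact (e.map_rel_iff (a := a) (b := ⟨b, hb'.1⟩)).2 hb'.2
    · intro b hb c hc hbc
      have := e.injective (Subtype.ext hbc)
      exact congrArg Subtype.val this
    · intro c hc
      have hc' := (Finset.mem_filter.1 hc).2
      obtain ⟨b, hb⟩ := e.surjective ⟨c, hc'.1⟩
      refine ⟨b.1, Finset.mem_filter.2 ⟨Finset.mem_univ _, b.2, ?_⟩, by
        have := congrArg Subtype.val hb
        exact this⟩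
      have : (G.induce {w | w ≠ v}).Adj (e a) (e b) := by rw [hb]; exact hc'.2
      exact (e.map_rel_iff (a := a) (b := b)).1 this
  refine Finset.card_bij (fun b hb => (e ⟨b, (Finset.mem_filter.1 hb).2.1⟩).1) ?_ ?_ ?_
  · intro b hb
    have hb' := (Finset.mem_filter.1 hb).2
    refine Finset.mem_filter.2 ⟨Finset.mem_univ _, (e ⟨b, hb'.1⟩).2, ?_⟩
    rw [← key ⟨b, hb'.1⟩]
    exact hb'.2
  · intro b hb c hc hbc
    have := e.injective (Subtype.ext hbc)
    exact congrArg Subtype.val this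
  · intro c hc
    have hc' := (Finset.mem_filter.1 hc).2
    obtain ⟨b, hb⟩ := e.surjective ⟨c, hc'.1⟩
    refine ⟨b.1, Finset.mem_filter.2 ⟨Finset.mem_univ _, b.2, ?_⟩, by
      have := congrArg Subtype.val hb
      exact this⟩
    rw [key b, hb]
    exact hc'.2

/-- degree, and numbers of neighbours / second invariants used to separate orbits -/
def dg (a : Fin 9) : ℕ := (Finset.univ.filter fun b : Fin 9 => G.Adj a b).card

def nb (f : Fin 9 → ℕ) (d : ℕ) (a : Fin 9) : ℕ :=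
  (Finset.univ.filter fun b : Fin 9 => G.Adj a b ∧ f b = d).card

theorem nb_inv (e : G ≃g G) (f : Fin 9 → ℕ) (hf : ∀ a, f (e a) = f a) (d : ℕ) (a : Fin 9) :
    nb f d (e a) = nb f d a := by
  symm
  refine Finset.card_bij (fun b _ => e b) ?_ ?_ ?_
  · intro b hb
    have hb' := (Finset.mem_filter.1 hb).2
    exact Finset.mem_filter.2 ⟨Finset.mem_univ _, e.map_rel_iff.2 hb'.1, by rw [hf, hb'.2]⟩
  · intro b _ c _ hbc
    exact e.injective hbc
  · intro c hc
    have hc' := (Finset.mem_filter.1 hc).2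
    obtain ⟨b, rfl⟩ := e.surjective c
    exact ⟨b, Finset.mem_filter.2 ⟨Finset.mem_univ _, e.map_rel_iff.1 hc'.1,
      by rw [← hf, hc'.2]⟩, rfl⟩

def f1 : Fin 9 → ℕ := nb (fun _ => 0) 0
def f2 : Fin 9 → ℕ := nb f1 3
def f3 (a : Fin 9) : ℕ := nb (fun b => 10 * f1 b + f2 b) 42 a

def sw : Fin 9 → Fin 9 := ![1,0,3,2,5,4,7,6,8]

def aut : G ≃g G := ⟨⟨sw, sw, by decide, by decide⟩, by
  intro a b
  show G.Adj (sw a) (sw b) ↔ G.Adj a b
  revert a b; decide⟩

theorem result :
    ∃ (n : ℕ) (G : SimpleGraph (Fin n)), G.Connected ∧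
      (∃ t : Fin n → Fin 4, Function.Surjective t ∧ ∀ u v, t u = t v ↔
        Nonempty (G.induce {w | w ≠ u} ≃g G.induce {w | w ≠ v})) ∧
      (∃ o : Fin n → Fin 5, Function.Surjective o ∧ ∀ u v, o u = o v ↔
        ∃ e : G ≃g G, e u = v) := by
  refine ⟨9, G, ?_, ⟨ty, by decide, ?_⟩, ⟨ob, by decide, ?_⟩⟩
  · refine ⟨fun u v => ?_⟩
    have h : ∀ w : Fin 9, G.Reachable 8 w := by
      have a : ∀ x y : Fin 9, G.Adj x y → G.Reachable x y := fun x y h => h.reachable
      have r0 := a 8 0 (by decide)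
      have r1 := a 8 1 (by decide)
      have r6 := a 8 6 (by decide)
      have r7 := a 8 7 (by decide)
      have r3 := r0.trans (a 0 3 (by decide))
      have r2 := r1.trans (a 1 2 (by decide))
      have r4 := r6.trans (a 6 4 (by decide))
      have r5 := r6.trans (a 6 5 (by decide))
      intro w
      fin_cases w
      exacts [r0, r1, r2, r3, r4, r5, r6, r7, Reachable.refl _]
    exact (h u).symm.trans (h v)
  · intro u v
    constructor
    · have i0 : ∀ u : Fin 9, Nonempty (G.induce {w | w ≠ u} ≃g G.induce {w | w ≠ u}) :=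
        fun u => ⟨Iso.refl⟩
      have i1 : ∀ u : Fin 9, Nonempty (G.induce {w | w ≠ u} ≃g G.induce {w | w ≠ sw u}) :=
        fun u => mk_iso u (sw u) sw sw (by decide) (by decide) rfl (by revert u; decide)
      have i46 : Nonempty (G.induce {w | w ≠ 4} ≃g G.induce {w | w ≠ 6}) :=
        mk_iso 4 6 ![8,5,2,1,6,3,4,0,7] ![7,3,2,5,6,1,4,8,0] (by decide) (by decide) rfl
          (by decide)
      have tr : ∀ {a b c : Fin 9}, Nonempty (G.induce {w | w ≠ a} ≃g G.induce {w | w ≠ b}) →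
          Nonempty (G.induce {w | w ≠ b} ≃g G.induce {w | w ≠ c}) →
          Nonempty (G.induce {w | w ≠ a} ≃g G.induce {w | w ≠ c}) :=
        fun ⟨x⟩ ⟨y⟩ => ⟨x.trans y⟩
      have sy : ∀ {a b : Fin 9}, Nonempty (G.induce {w | w ≠ a} ≃g G.induce {w | w ≠ b}) →
          Nonempty (G.induce {w | w ≠ b} ≃g G.induce {w | w ≠ a}) :=
        fun ⟨x⟩ => ⟨x.symm⟩
      have rep : ∀ u : Fin 9, Nonempty (G.induce {w | w ≠ u} ≃g
          G.induce {w | w ≠ (![0,2,4,8] : Fin 4 → Fin 9) (ty u)}) := by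
        intro u
        fin_cases u
        exacts [i0 0, i1 1, i0 2, i1 3, i0 4, i1 5, sy i46, tr (i1 7) (sy i46), i0 8]
      intro h
      have a := rep u
      rw [h] at a
      exact tr a (sy (rep v))
    · intro h
      have h2 := cnt_eq u v h 2
      have h3 := cnt_eq u v h 3
      revert h2 h3
      clear h
      revert u v
      decide +kernel
  · intro u v
    constructor
    · intro h
      have : v = u ∨ v = sw u := by revert u v; decide
      rcases this with rfl | rfl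
      · exact ⟨Iso.refl, rfl⟩
      · exact ⟨aut, rfl⟩
    · rintro ⟨e, rfl⟩
      have g1 : ∀ a, f1 (e a) = f1 a := nb_inv e _ (fun _ => rfl) 0
      have g2 : ∀ a, f2 (e a) = f2 a := nb_inv e _ g1 3
      have g3 : ∀ a, f3 (e a) = f3 a :=
        nb_inv e (fun b => 10 * f1 b + f2 b) (fun a => by simp only [g1, g2]) 42
      have key : ∀ u v : Fin 9, f1 v = f1 u → f2 v = f2 u → f3 v = f3 u → ob u = ob v := by
        decide +kernel
      exact key u (e u) (g1 u) (g2 u) (g3 u)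

end Pool.Agent.H.MP_73128c_co.Four
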