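import Pool.Agent.H.MP_73128c_co.T
import Pool.Agent.H.MP_73128c_co.Four

namespace Pool.Agent.H.MP_73128c_co

open SimpleGraph Finset

def G : SimpleGraph (Fin 63) where
  Adj a b := ad a b = true
  symm := ⟨fun a b h => by rw [ad_symm]; exact h⟩
  loopless := ⟨fun a h => by simp [ad_irr] at h⟩

lemma mk_iso {V : Type} (G : SimpleGraph V) (u v : V) (s : V ≃ V) (huv : s u = v)
    (h : ∀ a b, a ≠ u → b ≠ u → (G.Adj (s a) (s b) ↔ G.Adj a b)) :
    Nonempty (G.induce {w | w ≠ u} ≃g G.induce {w | w ≠ v}) :=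
  ⟨⟨s.subtypeEquiv fun a => by simp [← huv], fun {a b} => h a.1 b.1 a.2 b.2⟩⟩

lemma torep (u : Fin 63) : Nonempty (G.induce {w | w ≠ u} ≃g G.induce {w | w ≠ rp (ty u)}) := by
  induction' h : dp u using Nat.strong_induction_on with k ih generalizing u
  rcases step u with e | ⟨h1, h2, h3, h4⟩
  · rw [← e]; exact ⟨Iso.refl⟩
  · obtain ⟨x⟩ := ih _ (h ▸ h1) _ rfl
    obtain ⟨y⟩ := mk_iso G u _ (Equiv.ofBijective (gn (pa u)) (Finite.injective_iff_bijective.1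
      (Function.LeftInverse.injective (gn_inv _)))) rfl fun a b ha hb => by
        show ad (gn _ a) (gn _ b) = true ↔ ad a b = true
        rw [gn_ad _ a b (fun e => h3 e ▸ ⟨ha, hb⟩) fun e => h4 e ▸ ⟨ha, hb⟩]
    rw [h2] at x
    exact ⟨y.trans x⟩

def cd (u : Fin 63) (a : {w : Fin 63 | w ≠ u}) : ℕ :=
  ∑ b : {w : Fin 63 | w ≠ u}, if ad a.1 b.1 = true then 1 else 0
def cnt (u : Fin 63) : ℕ := ∑ a : {w : Fin 63 | w ≠ u}, if cd u a = 13 then 1 else 0

lemma cnt_eq {u v : Fin 63} (e : G.induce {w | w ≠ u} ≃g G.induce {w | w ≠ v}) : cnt u = cnt v := by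
  have k : ∀ a, cd v (e a) = cd u a := fun a => by
    rw [cd, cd, ← Equiv.sum_comp e.toEquiv]
    refine sum_congr rfl fun b _ => if_congr ?_ rfl rfl
    exact e.map_rel_iff
  rw [cnt, cnt, ← Equiv.sum_comp e.toEquiv]
  exact sum_congr rfl fun a _ => if_congr (by rw [← k a]; rfl) rfl rfl

set_option maxRecDepth 100000 in
lemma cnt_rp : ∀ i j : Fin 3, cnt (rp i) = cnt (rp j) → i = j := by decide +kernel

lemma types (u v : Fin 63) :
    ty u = ty v ↔ Nonempty (G.induce {w | w ≠ u} ≃g G.induce {w | w ≠ v}) := by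
  obtain ⟨a⟩ := torep u
  obtain ⟨b⟩ := torep v
  constructor
  · intro h
    rw [h] at a
    exact ⟨a.trans b.symm⟩
  · rintro ⟨c⟩
    exact cnt_rp _ _ (cnt_eq (a.symm.trans (c.trans b)))

def dg (x : Fin 63) : ℕ := ∑ y, if ad x y = true then 1 else 0
def cl (u x : Fin 63) : ℕ := ∑ y, if ad u y = true ∧ ad x y = true ∧ dg y = 13 then 1 else 0
def gi (u : Fin 63) : ℕ := ∑ x, ∑ y, if ad u x = true ∧ ad x y = true ∧ ¬ ad u y = true ∧
  dg y = 13 ∧ dg x = 14 ∧ cl u x = 1 ∧ cl u y = 0 then 1 else 0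

lemma gi_eq (e : G ≃g G) (u : Fin 63) : gi (e u) = gi u := by
  have h0 : ∀ a b, ad (e a) (e b) = true ↔ ad a b = true := fun a b => e.map_rel_iff
  have h1 : ∀ x, dg (e x) = dg x := fun x => by
    rw [dg, dg, ← Equiv.sum_comp e.toEquiv]
    exact sum_congr rfl fun b _ => if_congr (h0 _ _) rfl rfl
  have h2 : ∀ u x, cl (e u) (e x) = cl u x := fun u x => by
    rw [cl, cl, ← Equiv.sum_comp e.toEquiv]
    refine sum_congr rfl fun b _ => if_congr ?_ rfl rfl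
    show _ ∧ _ ∧ dg (e b) = 13 ↔ _
    rw [h1]
    exact and_congr (h0 _ _) (and_congr (h0 _ _) Iff.rfl)
  rw [gi, gi, ← Equiv.sum_comp e.toEquiv]
  refine sum_congr rfl fun a _ => ?_
  rw [← Equiv.sum_comp e.toEquiv]
  refine sum_congr rfl fun b _ => if_congr ?_ rfl rfl
  show ad (e u) (e a) = true ∧ ad (e a) (e b) = true ∧ ¬ ad (e u) (e b) = true ∧ dg (e b) = 13 ∧
    dg (e a) = 14 ∧ cl (e u) (e a) = 1 ∧ cl (e u) (e b) = 0 ↔ _
  rw [h0, h0, h0, h1, h1, h2, h2]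

set_option maxRecDepth 100000 in
lemma gi_ne : ∀ i j : Fin 4, ty (![0, 7, 9, 10] i) = ty (![0, 7, 9, 10] j) →
    gi (![0, 7, 9, 10] j) = gi (![0, 7, 9, 10] i) → i = j := by decide +kernel

lemma conn : G.Connected := by
  have h : ∀ a, G.Reachable 0 a := fun a => by
    rcases near a with h | h | ⟨b, h1, h2⟩ | ⟨b, h1, c, h2, h3⟩
    · rw [h]
    · exact Adj.reachable h
    · exact (Adj.reachable (G := G) h1).trans (Adj.reachable h2)
    · exact ((Adj.reachable (G := G) h1).trans (Adj.reachable (G := G) h2)).trans (Adj.reachable h3)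
  exact ⟨fun u v => (h u).symm.trans (h v)⟩

lemma main (k : ℕ) (hk : k = 3 ∨ k = 4) : ∃ (n : ℕ) (G : SimpleGraph (Fin n)), G.Connected ∧
    (∃ t : Fin n → Fin k, Function.Surjective t ∧ ∀ u v, t u = t v ↔
      Nonempty (G.induce {w | w ≠ u} ≃g G.induce {w | w ≠ v})) ∧
    ∃ p : Fin (k + 1) → Fin n, ∀ i j, (∃ e : G ≃g G, e (p i) = p j) → i = j := by
  rcases hk with rfl | rfl
  · refine ⟨63, G, conn, ⟨ty, by decide +kernel, types⟩, ![0, 7, 9, 10], ?_⟩
    rintro i j ⟨e, he⟩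
    refine gi_ne i j ((types _ _).2 (mk_iso G _ _ e.toEquiv he fun a b _ _ => e.map_rel_iff)) ?_
    rw [← he, gi_eq]
  · obtain ⟨n, H, h1, h2, o, h3, h4⟩ := Four.result
    obtain ⟨p, hp⟩ := h3.hasRightInverse
    exact ⟨n, H, h1, h2, p, fun i j h => by rw [← hp i, ← hp j]; exact (h4 _ _).2 h⟩

end Pool.Agent.H.MP_73128c_co
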