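import Mathlib

namespace Pool.Agent.H.MP_73128c_co

open SimpleGraph Finset

def AD : ℕ := 0x18032210942150001804c4090a40a800600488c2410c5000600311242092280001b022094112050001c84410a08c0200064808a414408500063011420a210218001104a08902c01800088341108521600044030a240292600022049442050c018011480a10a80c018008b0140950120600443020c228210600224841245040031100018c282441048880019250422004c40006212809140322000640d0108a301100184082c214480880182105240a48440060120290c1302200600c0509202204818005120a4244030180028c1424088306000540a0901104860002a1410922481800502120a4443018002840c14208b06000500c0a09114860002812141010a08c05000630440941120280064822420a21050001c811241440828001b008090a40d00060034410942128006004a2242092500018049142410c280018030814092812060008c80a10d00c06001130412428408180223020c2502101804448411082a16000088420890540e00011031442028c180022030a240512180044042102a40a3008806040854214481100600c028920c8220018120510c13044001812284220830880060c5024410491000640a8108a04a2000121500914034400015040c14244486000282120a4223060005012141091301800280c0a0908c81800050c14244404860002920a42220306000521410911030180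

def GN : ℕ := 0x105115564933c830934e28b1e09219668a37f8f39f7eebbde8b29b6eaab9f0d31d76cb3bd871975e69b5c0101146083030cb5cf4db1bc828d2cc3891d04954d45913e8aadaecba99d869d6dc7995e08a58e49a17f8ebdefcfb9dc00850c418102fc31cb3d35db8dfae7cefef6189f8259a392aa689eeb6cad351558f41149c6de7585da64518310108700e34c2ca248031cafc35db3d3ae78dfef7cedf8218a39259a89eaa6caeeb5559351148f41e75c6da6585c310518900108c2ce3481ca

def GI : ℕ := 0x228e58219267d24d54115163da6dd61971e5eaaeda29b2e9ca2cd20930e1faefde39f3edf2cf5c31d36bc20c500110600930a2cd20e1f9f3aefde3ede19228e58267d15124d54163d971a6dd61e5e9b2aaeda2e9f1d32cf5c36bc11020c5006030bf2c74cf6d77e39ebbf3dfa28607e69648e9aa7a2dbabb144d65503d245b71d7976196861440c204020d38b309287032c70bf6d74cf9eb7e3dfbbf207e28648e6967a29aabb2db965544d24503dd79b7196976040c614028204b30d387209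

def ad (a b : Fin 63) : Bool := AD.testBit (64 * a.val + b.val)
def gn (i : Fin 4) (a : Fin 63) : Fin 63 := Fin.ofNat 63 ((GN >>> (6 * (64 * i.val + a.val))) % 64)
def gv (i : Fin 4) (a : Fin 63) : Fin 63 := Fin.ofNat 63 ((GI >>> (6 * (64 * i.val + a.val))) % 64)
def pa (u : Fin 63) : Fin 4 := Fin.ofNat 4 ((0x2aaaabfeaaaabfbeefeffffaea89abfa >>> (2 * u.val)) % 4)
def dp (u : Fin 63) : ℕ := (0x21831420c30820811050810451031040c60c41041430c40c61041451451020830c31440840c71810010010c3102080 >>> (6 * u.val)) % 64
def ty (u : Fin 63) : Fin 3 := Fin.ofNat 3 ((56691336018908691506778441417509912576 >>> (2 * u.val)) % 4)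
def rp : Fin 3 → Fin 63 := ![0, 7, 9]

set_option maxRecDepth 100000 in
lemma ad_symm : ∀ a b, ad a b = ad b a := by decide +kernel
set_option maxRecDepth 100000 in
lemma ad_irr : ∀ a, ad a a = false := by decide +kernel
set_option maxRecDepth 100000 in
lemma step : ∀ u, u = rp (ty u) ∨ (dp (gn (pa u) u) < dp u ∧ ty (gn (pa u) u) = ty u ∧
    (pa u = 0 → u = 10) ∧ (pa u = 1 → u = 8)) := by decide +kernel
set_option maxRecDepth 100000 in
lemma gn_inv : ∀ i a, gv i (gn i a) = a := by decide +kernel
set_option maxRecDepth 100000 in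
lemma gn_ad : ∀ i a b, (i = 0 → a ≠ 10 ∧ b ≠ 10) → (i = 1 → a ≠ 8 ∧ b ≠ 8) →
    ad (gn i a) (gn i b) = ad a b := by decide +kernel
set_option maxRecDepth 100000 in
lemma near : ∀ a, a = 0 ∨ ad 0 a = true ∨ (∃ b, ad 0 b = true ∧ ad b a = true) ∨
    ∃ b, ad 0 b = true ∧ ∃ c, ad b c = true ∧ ad c a = true := by decide +kernel

end Pool.Agent.H.MP_73128c_co
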